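import Pool.Agent.Lib_MP_cb5629.App
import Pool.Agent.Lib_MP_cb5629.PAll

/-!
Symmetric configurations with strong chromatic number five have weak chromatic number two.
-/

namespace Pool.Agent.Results.MP_cb5629_co.StrongFive

open MCC

universe u

/-- There is no symmetric configuration `v_3` with `χ_s = 5` and `χ_w = 3`: the strong chromatic number five forces the
weak chromatic number two. More generally, a finite incidence structure with three points on every line and three lines
through every point (two points may be on several common lines) whose points have a strong colouring with five colours has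
a blocking set: a set of points that meets every line but contains no line. -/
theorem result :
    (∀ (X L : Type u) [Finite X] [Finite L] (I : X → L → Prop), IsV3 I → chiS I = 5 → chiW I = 2) ∧
      ∀ (X L : Type u) [Finite X] [Finite L] (I : X → L → Prop),
        (∀ l, {p | I p l}.ncard = 3) → (∀ p, {l | I p l}.ncard = 3) → StrongCol I 5 →
          ∃ S : Set X, ∀ l, (∃ p ∈ S, I p l) ∧ ∃ p, p ∉ S ∧ I p l := by
  refine ⟨?_, fun X L _ _ I h1 h2 h => App_block P_all h1 h2 h⟩
  intro X L _ _ I h h5
  have hne : Nonempty X := by
    by_contra hcon
    rw [not_nonempty_iff] at hcon
    have h0 : chiS I ≤ 0 := Nat.sInf_le ⟨fun p => (hcon.false p).elim, fun _ p => (hcon.false p).elim⟩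
    omega
  exact App_chi P_all h.pts h.lns h5.le

end Pool.Agent.Results.MP_cb5629_co.StrongFive
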